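import Mathlib
import Pool.Agent.V5helper90.RZYes

/-!
# Amalgamation of real zero polynomials in two shared variables fails from degree three on

Let `p(x₁, x₂, y)` and `q(x₁, x₂, z)` be real zero polynomials of degree at most `d`, in `m`
variables `y` and `n` variables `z`, with `p(x, 0) = q(x, 0)`. The question is whether there is always
a real zero polynomial `r(x, y, z)` of degree at most `d` with `r(x, y, 0) = p` and `r(x, 0, z) = q`.

The answer is no, already for `d = 3` and `m = n = 1`: for the cubic real zero polynomials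

* `p = (2 + x₁ + y) (1 + x₁ - x₂²)`
* `q = (2 + x₁) (1 + x₁ - x₂²) + z ((2 + x₁)² - 4 x₂²)`

there is no real zero polynomial `r` whatsoever, of any degree, with `r(x, y, 0) = p` and
`r(x, 0, z) = q`. Both versions of the amalgamation property (with and without the bound for the degree
of `r`) hold exactly for the triples `(d, m, n)` with `d ≤ 2` or `m = 0` or `n = 0`.

Why there is no `r`. For real `u` the restriction of `p` to the line through the origin and the point
`(x, y) = (u² - 1, u, -(u² + 1))` has a double zero at this point. Since the restriction of `r` to all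
nearby lines has only real zeros, Laguerre's inequality shows that the derivative of `r` in the
direction `z` vanishes at this point (with `z = 0`). This holds for all real `u`, so also for
`u = i`, when `(x, y) = (-2, i, 0)` and the derivative is the one of `q`, which is `4`.
-/

namespace Pool.Agent.Results.MP_eea824_ag.AmalgamationTwoShared

open MvPolynomial

/-- A real polynomial `f` is a real zero polynomial if for all real points `a` and all complex `l`
with `f (l a) = 0` the number `l` is real. -/
def RealZero {σ : Type*} (f : MvPolynomial σ ℝ) : Prop :=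
  ∀ (a : σ → ℝ) (l : ℂ), aeval (fun i => l * (a i : ℂ)) f = 0 → l.im = 0

/-- The restriction `p(x, 0)` of a polynomial `p(x, y)`. -/
noncomputable def restrictX {m : ℕ} (p : MvPolynomial (Fin 2 ⊕ Fin m) ℝ) :
    MvPolynomial (Fin 2) ℝ :=
  aeval (Sum.elim (fun i => X i) (fun _ => 0)) p

/-- The restriction `r(x, y, 0)` of a polynomial `r(x, y, z)`. -/
noncomputable def restrictXY {m n : ℕ} (r : MvPolynomial (Fin 2 ⊕ (Fin m ⊕ Fin n)) ℝ) :
    MvPolynomial (Fin 2 ⊕ Fin m) ℝ :=
  aeval (Sum.elim (fun i => X (Sum.inl i)) (Sum.elim (fun j => X (Sum.inr j)) (fun _ => 0))) r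

/-- The restriction `r(x, 0, z)` of a polynomial `r(x, y, z)`. -/
noncomputable def restrictXZ {m n : ℕ} (r : MvPolynomial (Fin 2 ⊕ (Fin m ⊕ Fin n)) ℝ) :
    MvPolynomial (Fin 2 ⊕ Fin n) ℝ :=
  aeval (Sum.elim (fun i => X (Sum.inl i)) (Sum.elim (fun _ => 0) (fun k => X (Sum.inr k)))) r

/-- Any two real zero polynomials `p(x, y)` and `q(x, z)` of degree at most `d` in two shared
variables `x`, `m` variables `y` and `n` variables `z` with `p(x, 0) = q(x, 0)` are restrictions of a
real zero polynomial `r(x, y, z)` of degree at most `d`. -/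
def DegreePreservingAmalgamation (d m n : ℕ) : Prop :=
  ∀ (p : MvPolynomial (Fin 2 ⊕ Fin m) ℝ) (q : MvPolynomial (Fin 2 ⊕ Fin n) ℝ),
    RealZero p → RealZero q → p.totalDegree ≤ d → q.totalDegree ≤ d → restrictX p = restrictX q →
    ∃ r : MvPolynomial (Fin 2 ⊕ (Fin m ⊕ Fin n)) ℝ,
      RealZero r ∧ r.totalDegree ≤ d ∧ restrictXY r = p ∧ restrictXZ r = q

/-- The same property without a bound for the degree of the amalgam `r`. -/
def Amalgamation (d m n : ℕ) : Prop :=
  ∀ (p : MvPolynomial (Fin 2 ⊕ Fin m) ℝ) (q : MvPolynomial (Fin 2 ⊕ Fin n) ℝ),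
    RealZero p → RealZero q → p.totalDegree ≤ d → q.totalDegree ≤ d → restrictX p = restrictX q →
    ∃ r : MvPolynomial (Fin 2 ⊕ (Fin m ⊕ Fin n)) ℝ,
      RealZero r ∧ restrictXY r = p ∧ restrictXZ r = q

/-- Amalgamation of real zero polynomials of degree at most `d` with two shared variables and `m`
respectively `n` further variables is possible, with or without a bound for the degree of the
amalgam, exactly if `d ≤ 2` or `m = 0` or `n = 0`. -/
theorem result (d m n : ℕ) :
    (DegreePreservingAmalgamation d m n ↔ d ≤ 2 ∨ m = 0 ∨ n = 0) ∧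
    (Amalgamation d m n ↔ d ≤ 2 ∨ m = 0 ∨ n = 0) :=
  ⟨⟨fun h => V5helper90.RZ.of_weak d m n (V5helper90.RZ.weak_of_amalgamation d m n h),
      V5helper90.RZ.amalgamation_of d m n⟩,
    ⟨V5helper90.RZ.of_weak d m n,
      fun h => V5helper90.RZ.weak_of_amalgamation d m n (V5helper90.RZ.amalgamation_of d m n h)⟩⟩

end Pool.Agent.Results.MP_eea824_ag.AmalgamationTwoShared
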